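import Pool.Agent.helper82.OG.Spec

/-! Project og: (MP_ebc808_nt): module ODI. -/

set_option autoImplicit false

open Finset

noncomputable section

namespace Pool.Agent.OG

open Pool.Agent.EP

open Classical in
theorem ODI (hIDK : IDK_stmt) (hLFT : LFT_stmt) : ODI_stmt := by
  intro a r M ha hr hM h1 h2
  have hr0 : 0 < r := by
    rcases Nat.eq_zero_or_pos r with h | h
    · subst h
      revert hr
      decide
    · exact h
  have e1 := hLFT a r M hr0 hM
  have e2 := hIDK a r ha hr (M : ℤ)
  rw [e1, h1] at e2
  simp only [h2, if_false, Nat.cast_one, add_zero] at e2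
  by_contra hcon
  push Not at hcon
  rw [Finset.sum_eq_zero hcon] at e2
  exact one_ne_zero e2

end Pool.Agent.OG
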